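import Pool.Agent.helper92.VC.Spec

/-! # Row vc:NIS -/

universe u

namespace Pool.Agent.helper92.VC

open MvPolynomial

theorem NIS_basis (E : Type*) (K : Type u) [Field K] [AddCommGroup E] [Module K E] (w : ℕ)
    (S : Set E) (g₀ : Fin w → E) (h : S ⊆ (Submodule.span K (Set.range g₀) : Set E)) :
    ∃ g : Fin w → E, (∀ a, g a ∈ Submodule.span K S) ∧ S ⊆ (Submodule.span K (Set.range g) : Set E) := by
  have hle : Submodule.span K S ≤ Submodule.span K (Set.range g₀) := Submodule.span_le.mpr h
  have : FiniteDimensional K (Submodule.span K (Set.range g₀)) :=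
    FiniteDimensional.span_of_finite K (Set.finite_range g₀)
  have : FiniteDimensional K (Submodule.span K S) := Submodule.finiteDimensional_of_le hle
  have hrk : Module.finrank K (Submodule.span K S) ≤ w := by
    refine (Submodule.finrank_mono hle).trans ?_
    have := finrank_range_le_card (R := K) g₀
    rwa [Fintype.card_fin] at this
  let B := Module.finBasis K (Submodule.span K S)
  refine ⟨fun t => if ht : (t : ℕ) < Module.finrank K (Submodule.span K S) then
    ((B ⟨t, ht⟩ : Submodule.span K S) : E) else 0, ?_, ?_⟩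
  · intro a
    by_cases ha : (a : ℕ) < Module.finrank K (Submodule.span K S)
    · simp only [ha, dif_pos]
      exact (B ⟨a, ha⟩).2
    · simp only [ha, dif_neg, not_false_eq_true]
      exact Submodule.zero_mem _
  · intro T hT
    have hT' : T ∈ Submodule.span K S := Submodule.subset_span hT
    have e := B.sum_repr ⟨T, hT'⟩
    have e2 : T = ∑ i, (B.repr ⟨T, hT'⟩) i • ((B i : Submodule.span K S) : E) := by
      have := congrArg (fun z : Submodule.span K S => (z : E)) e
      simp only [Submodule.coe_sum, Submodule.coe_smul] at this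
      exact this.symm
    rw [e2]
    refine Submodule.sum_mem _ fun i _ => Submodule.smul_mem _ _ (Submodule.subset_span ?_)
    refine ⟨⟨i, lt_of_lt_of_le i.2 hrk⟩, ?_⟩
    simp only [i.2, dif_pos]

theorem NIS : NIS_stmt.{u} := by
  intro ι _ K _ w l
  induction l with
  | nil =>
    intro S e₀ _ hS
    obtain ⟨g, hg⟩ := hS
    refine ⟨fun _ _ => 1, fun t => g t e₀, fun T hT => ?_⟩
    obtain ⟨c, hc⟩ := (Submodule.mem_span_range_iff_exists_fun K).mp (hg hT)
    refine ⟨c, fun e he => ?_⟩
    have : e = e₀ := funext fun y => he y (List.not_mem_nil)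
    subst this
    rw [List.map_nil, List.prod_nil, Matrix.one_mulVec, ← hc]
    simp [dotProduct, Finset.sum_apply, Pi.smul_apply, smul_eq_mul]
  | cons x s ih =>
    intro S e₀ hnd hS
    obtain ⟨⟨g₀, hg₀⟩, hS'⟩ := hS
    have hxs : x ∉ s := (List.nodup_cons.mp hnd).1
    obtain ⟨M', v, hM'⟩ := ih {T' | ∃ T ∈ S, ∃ j, T' = restr x j T} e₀ (List.nodup_cons.mp hnd).2 hS'
    -- extension to the span
    have hspan : ∀ T' ∈ Submodule.span K {T' | ∃ T ∈ S, ∃ j, T' = restr x j T}, ∃ u : Fin w → K,
        ∀ e : ι → ℕ, (∀ y, y ∉ s → e y = e₀ y) →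
          T' e = u ⬝ᵥ Matrix.mulVec (s.map fun x => M' x (e x)).prod v := by
      intro T' hT'
      induction hT' using Submodule.span_induction with
      | mem T' h => exact hM' T' h
      | zero => exact ⟨0, fun e _ => by rw [zero_dotProduct]; rfl⟩
      | add a b _ _ ha hb =>
        obtain ⟨ua, hua⟩ := ha
        obtain ⟨ub, hub⟩ := hb
        exact ⟨ua + ub, fun e he => by rw [add_dotProduct, ← hua e he, ← hub e he]; rfl⟩
      | smul c a _ ha =>
        obtain ⟨ua, hua⟩ := ha
        exact ⟨c • ua, fun e he => by rw [smul_dotProduct, ← hua e he]; rfl⟩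
    have hrestr : ∀ (j : ℕ) (T : (ι → ℕ) → K), T ∈ Submodule.span K S →
        restr x j T ∈ Submodule.span K {T' | ∃ T ∈ S, ∃ j, T' = restr x j T} := by
      intro j T hT
      induction hT using Submodule.span_induction with
      | mem T h => exact Submodule.subset_span ⟨T, h, j, rfl⟩
      | zero => exact Submodule.zero_mem _
      | add a b _ _ ha hb => exact Submodule.add_mem _ ha hb
      | smul c a _ ha => exact Submodule.smul_mem _ c ha
    obtain ⟨g, hgS, hSg⟩ := NIS_basis _ K w S g₀ hg₀
    choose u hu using fun (a : Fin w) (j : ℕ) => hspan _ (hrestr j (g a) (hgS a))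
    refine ⟨Function.update M' x (fun j => Matrix.of fun a => u a j), v, fun T hT => ?_⟩
    obtain ⟨c, hc⟩ := (Submodule.mem_span_range_iff_exists_fun K).mp (hSg hT)
    refine ⟨c, fun e he => ?_⟩
    have hne : ∀ y ∈ s, y ≠ x := fun y hy h => hxs (h ▸ hy)
    have hPe : (s.map fun y => (Function.update M' x (fun j => Matrix.of fun a => u a j)) y (e y))
        = s.map fun y => M' y ((Function.update e x (e₀ x)) y) := by
      refine List.map_congr_left fun y hy => ?_
      rw [Function.update_of_ne (hne y hy), Function.update_of_ne (hne y hy)]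
    have hga : ∀ a, g a e = u a (e x) ⬝ᵥ
        Matrix.mulVec (s.map fun y => M' y ((Function.update e x (e₀ x)) y)).prod v := by
      intro a
      rw [← hu a (e x) (Function.update e x (e₀ x)) ?_]
      · unfold restr
        rw [Function.update_idem, Function.update_eq_self]
      · intro y hy
        by_cases hyx : y = x
        · subst hyx; rw [Function.update_self]
        · rw [Function.update_of_ne hyx]
          exact he y (by simp [hyx, hy])
    rw [List.map_cons, List.prod_cons, hPe, Function.update_self, ← Matrix.mulVec_mulVec, ← hc]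
    simp only [Finset.sum_apply, Pi.smul_apply, smul_eq_mul, hga]
    rfl

end Pool.Agent.helper92.VC
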